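import Pool.Agent.MP_269329_co.H81.Main

open MeasureTheory Pool.Agent.MP_269329_co.H81

/-- For every `m ≥ 3` the set `W` has full Lebesgue measure in `ℂ^m`; in particular it is not null. -/
theorem Pool.Agent.Results.MP_269329_co.Disproof.result :
    ∀ m : ℕ, 3 ≤ m → volume (W m)ᶜ = 0 ∧ 0 < volume (W m) := by
  intro m hm
  have h : volume (W m)ᶜ = 0 := ae_mem_W m hm
  refine ⟨h, ?_⟩
  rw [pos_iff_ne_zero]
  intro h0
  have h1 := measure_univ_le_add_compl (μ := volume) (W m)
  rw [h, h0, add_zero, nonpos_iff_eq_zero, Measure.measure_univ_eq_zero] at h1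
  exact NeZero.ne _ h1
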